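import Pool.Agent.W46.HD.Main

/-!
# MP_b1773a_an: Hausdorff dimension of Kakeya sets in high dimensions
-/

set_option autoImplicit false

namespace Pool.Agent.Results.MP_b1773a_an.ArithmeticHausdorff

/-- `K` contains a unit segment in every direction. -/
def HasSegments {n : ℕ} (K : Set (EuclideanSpace ℝ (Fin n))) : Prop :=
  ∀ e : EuclideanSpace ℝ (Fin n), ‖e‖ = 1 → ∃ a : EuclideanSpace ℝ (Fin n),
    ∀ t ∈ Set.Icc (0 : ℝ) 1, a + t • e ∈ K

/-- For `n ≥ 1`, every set in `ℝ^n` with a unit segment in every direction (in particular every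
Kakeya set) has Hausdorff dimension at least `1 + (n - 1) / 1.6752`. -/
theorem result (n : ℕ) (hn : 1 ≤ n) (K : Set (EuclideanSpace ℝ (Fin n))) (hK : HasSegments K) :
    ENNReal.ofReal (1 + ((n : ℝ) - 1) / 1.6752) ≤ dimH K := by
  obtain ⟨d, rfl⟩ : ∃ d, n = d + 1 := ⟨n - 1, by omega⟩
  have h := Pool.Agent.W46.HD.hausdorff d K hK
  have e1 : (((d + 1 : ℕ) : ℝ) - 1) = d := by push_cast; ring
  have e2 : (1.6752 : ℝ) = 16752 / 10000 := by norm_num
  rw [e1, e2]
  exact h

end Pool.Agent.Results.MP_b1773a_an.ArithmeticHausdorff
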