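import Pool.Agent.TH290.Kak.Wrap2

set_option autoImplicit false

/-!
# MP_b1773a: Kakeya sets whose segments depend regularly on the direction only along the boundary
of a region of directions

Directions of `ℝ^(k+1)` are written `(1, v)` with slope `v ∈ ℝ^k`; the line of slope `v` and
position `b` is `{(t, b + t v)}`.  Let `Ω ⊆ ℝ^k` be a bounded open set whose boundary has Minkowski
codimension `β` (`β = 1` for cubes), and let `Γ ⊆ ℝ^k × ℝ^k` be a compact set of pairs
(slope, position) such that for every slope `v` in the closure of `Ω` the set of positions `b` with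
`(v, b) ∈ Γ` is nonempty and convex.  For instance `Γ` is the graph of an arbitrary *continuous*
selection, or the set of all the pairs such that the segment lies in a given compact set, when this
segment is unique for each `v`.  The only regularity assumption is made on the *boundary* of `Ω`:
there the positions can be selected in a Hölder continuous way with exponent `α > 1 - β / k`
(`α > 1 - 1 / k` for cubes).

If `K ⊆ ℝ^n`, `n = k + 1`, contains the segments over the heights `t ∈ [t1, t2]` of all these lines,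
then for all but at most `k` heights the slice of `K` has nonempty interior, and `K` has nonempty
interior: it cannot be a Kakeya set of measure zero or of small dimension.  If `k + 1 < n` the same
is true for the projection of `K` to `k + 1` of the coordinates, for a `k`-parameter family of
segments, and `K` has positive `(k+1)`-dimensional Hausdorff measure.

The Hölder selections on a whole open set of directions treated in the file `HoelderDimension` are
a special case; there only the dimension was bounded.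

Proof: let `g` be the extension of the boundary values to `Ω` by mollification at the scale of the
distance to the boundary; its Jacobian determinants are integrable, exactly because `α > 1 - β/k`.
The integral over `Ω` of `det D(g + t v)` is a polynomial in `t` of degree `k` with leading
coefficient `|Ω|`.  If it is not zero, then, the image of the boundary being null, the degree of
`g + t v` is nonzero at some point off this image, hence near it and for the neighbouring heights;
since the degree only depends on the boundary values these points are covered by all the continuous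
maps (and, by approximate selections, by the convex-valued maps) with the same boundary values.
-/

open MeasureTheory Set
open scoped ENNReal

namespace Pool.Agent.Results.MP_b1773a_an.BoundaryRegularSelection

/-- Euclidean space `ℝ^n`. -/
abbrev E (n : ℕ) : Type := EuclideanSpace ℝ (Fin n)

/-- `Ω ⊆ ℝ^k` is open, bounded and nonempty, and its boundary has Minkowski codimension at least
`β > 0`: the volume of its `r`-neighbourhood is at most `A r^β` for `0 < r ≤ 1`. -/
structure Region (k : ℕ) (Ω : Set (Fin k → ℝ)) (β : ℝ) : Prop where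
  isOpen : IsOpen Ω
  bounded : Bornology.IsBounded Ω
  nonempty : Ω.Nonempty
  pos : 0 < β
  layer : ∃ A : ℝ, ∀ r : ℝ, 0 < r → r ≤ 1 →
    volume (Metric.cthickening r (frontier Ω)) ≤ ENNReal.ofReal (A * r ^ β)

/-- `Γ` is a compact set of pairs (slope, position); for every slope in the closure of `Ω` the
positions form a nonempty convex set; on the boundary of `Ω` they have an `α`-Hölder selection. -/
structure Selection (k : ℕ) (Ω : Set (Fin k → ℝ)) (α : ℝ)
    (Γ : Set ((Fin k → ℝ) × (Fin k → ℝ))) : Prop where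
  compact : IsCompact Γ
  nonempty : ∀ v ∈ closure Ω, ∃ b, (v, b) ∈ Γ
  convex : ∀ v ∈ closure Ω, Convex ℝ {b | (v, b) ∈ Γ}
  boundary : ∃ (g : (Fin k → ℝ) → Fin k → ℝ) (C : ℝ), (∀ v ∈ frontier Ω, (v, g v) ∈ Γ) ∧
    ∀ v ∈ frontier Ω, ∀ w ∈ frontier Ω, ‖g v - g w‖ ≤ C * ‖v - w‖ ^ α

/-- For each pair `(v, b) ∈ Γ` and each height `t ∈ [t1, t2]`, `K` contains a point whose
coordinates number `ι 0, ι 1, ..., ι k` are `t` and those of `b + t v`. -/
def Contains {n k : ℕ} (ι : Fin (k + 1) → Fin n) (t1 t2 : ℝ)
    (Γ : Set ((Fin k → ℝ) × (Fin k → ℝ))) (K : Set (E n)) : Prop :=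
  ∀ v b, (v, b) ∈ Γ → ∀ t ∈ Icc t1 t2,
    ∃ x ∈ K, x (ι 0) = t ∧ ∀ j : Fin k, x (ι j.succ) = b j + t * v j

/-- The projection to the coordinates `ι 1, ..., ι k` of the slice of `K` at height `t`. -/
def slice {n k : ℕ} (ι : Fin (k + 1) → Fin n) (K : Set (E n)) (t : ℝ) : Set (Fin k → ℝ) :=
  {y | ∃ x ∈ K, x (ι 0) = t ∧ ∀ j : Fin k, x (ι j.succ) = y j}

/-- The point of `ℝ^(k+1)` with coordinates `t, y_1, ..., y_k`. -/
noncomputable def pt {k : ℕ} (t : ℝ) (y : Fin k → ℝ) : E (k + 1) :=
  WithLp.toLp 2 (Fin.cons t y : Fin (k + 1) → ℝ)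

/-- `K ⊆ ℝ^(k+1)` contains the segment `{(t, b + t v) : t1 ≤ t ≤ t2}`. -/
def Seg {k : ℕ} (K : Set (E (k + 1))) (t1 t2 : ℝ) (v b : Fin k → ℝ) : Prop :=
  ∀ t ∈ Icc t1 t2, pt t (b + t • v) ∈ K

/-- **Kakeya sets with a convex-valued (for instance continuous) selection of the segments which is
Hölder continuous, with exponent `α > 1 - β/k`, on the boundary of a region of slopes.**
The other parts say that cubes are regions with `β = 1`, that the graph of a continuous map
which is `α`-Hölder on the boundary is a selection, and that so is the set of all the segments over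
`[t1, t2]` with slopes in the closure of `Ω` contained in a compact set `K ⊆ ℝ^(k+1)`, if for each
of these slopes there is exactly one, depending in an `α`-Hölder way on the slope on the
boundary. -/
theorem result (k : ℕ) (hk : 1 ≤ k) :
    (∀ (n : ℕ) (ι : Fin (k + 1) → Fin n), Function.Injective ι →
      ∀ (Ω : Set (Fin k → ℝ)) (β : ℝ), Region k Ω β →
      ∀ (α : ℝ), 0 < α → α ≤ 1 → 1 - β / k < α →
      ∀ (Γ : Set ((Fin k → ℝ) × (Fin k → ℝ))), Selection k Ω α Γ →
      ∀ (t1 t2 : ℝ), t1 < t2 → ∀ K : Set (E n), Contains ι t1 t2 Γ K →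
        {t ∈ Icc t1 t2 | interior (slice ι K t) = ∅}.encard ≤ k ∧
        Measure.hausdorffMeasure ((k : ℝ) + 1) K ≠ 0 ∧ ((k + 1 : ℕ) : ℝ≥0∞) ≤ dimH K ∧
        (n = k + 1 → (interior K).Nonempty)) ∧
    (∀ (v0 : Fin k → ℝ) (R : ℝ), 0 < R → Region k (Metric.ball v0 R) 1) ∧
    (∀ (Ω : Set (Fin k → ℝ)) (β : ℝ), Region k Ω β → ∀ (a : (Fin k → ℝ) → Fin k → ℝ) (α C : ℝ),
      ContinuousOn a (closure Ω) →
      (∀ v ∈ frontier Ω, ∀ w ∈ frontier Ω, ‖a v - a w‖ ≤ C * ‖v - w‖ ^ α) →
      Selection k Ω α ((fun v => (v, a v)) '' closure Ω)) ∧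
    (∀ (Ω : Set (Fin k → ℝ)) (β : ℝ), Region k Ω β → ∀ (K : Set (E (k + 1))), IsCompact K →
      ∀ (t1 t2 α C : ℝ), t1 < t2 → (∀ v ∈ closure Ω, ∃! b, Seg K t1 t2 v b) →
      (∀ v ∈ frontier Ω, ∀ w ∈ frontier Ω, ∀ b c, Seg K t1 t2 v b → Seg K t1 t2 w c →
        ‖b - c‖ ≤ C * ‖v - w‖ ^ α) →
      Selection k Ω α {p | p.1 ∈ closure Ω ∧ Seg K t1 t2 p.1 p.2} ∧
      Contains id t1 t2 {p | p.1 ∈ closure Ω ∧ Seg K t1 t2 p.1 p.2} K) := by
  have hk0 : (0 : ℝ) < k := by exact_mod_cast hk
  refine ⟨?_, ?_, ?_, ?_⟩
  · intro n ι hι Ω β hΩ α hα0 hα1 hαβ Γ hΓ t1 t2 h12 K hK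
    obtain ⟨A, hA⟩ := hΩ.layer
    obtain ⟨g, C, hgΓ, hg⟩ := hΓ.boundary
    have hαβ' : (k : ℝ) - β < α * k := by
      have h1 : (1 - β / k) * k < α * k := by gcongr
      have h2 : (1 - β / k) * k = k - β := by field_simp
      linarith
    have hbad := Pool.Agent.TH290.Kak.main hk hΩ.isOpen hΩ.bounded hΩ.nonempty hΩ.pos hA hα0 hα1
      hαβ' hΓ.compact hΓ.nonempty hΓ.convex hgΓ hg
    obtain ⟨h1, _, h3, h4, h5⟩ := Pool.Agent.TH290.Kak.wrap ι hι hbad h12 hK
    exact ⟨h1, h3, h4, h5⟩
  · intro v0 R hR
    exact ⟨Metric.isOpen_ball, Metric.isBounded_ball, ⟨v0, Metric.mem_ball_self hR⟩, one_pos,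
      Pool.Agent.TH290.Kak.cube_layer v0 hR⟩
  · intro Ω β hΩ a α C ha hH
    refine ⟨?_, ?_, ?_, ⟨a, C, ?_, hH⟩⟩
    · exact hΩ.bounded.isCompact_closure.image_of_continuousOn (continuousOn_id.prodMk ha)
    · intro v hv
      exact ⟨a v, v, hv, rfl⟩
    · intro v hv
      have : {b | (v, b) ∈ (fun v => (v, a v)) '' closure Ω} = {a v} := by
        ext b
        simp only [mem_image, Set.mem_ofPred_eq, mem_singleton_iff, Prod.mk.injEq]
        constructor
        · rintro ⟨w, _, rfl, rfl⟩; rfl
        · rintro rfl; exact ⟨v, hv, rfl, rfl⟩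
      rw [this]
      exact convex_singleton _
    · intro v hv
      exact ⟨v, frontier_subset_closure hv, rfl⟩
  · intro Ω β hΩ K hK t1 t2 α C h12 huniq hH
    have hpt : Continuous (fun q : ℝ × (Fin k → ℝ) => (pt q.1 q.2 : E (k + 1))) := by
      unfold pt
      refine (PiLp.continuous_toLp 2 _).comp ?_
      refine continuous_pi fun i => ?_
      refine Fin.cases ?_ (fun j => ?_) i
      · simpa using continuous_fst
      · simp only [Fin.cons_succ]; fun_prop
    have hpt0 : ∀ (t : ℝ) (y : Fin k → ℝ), (pt t y : E (k + 1)) 0 = t := fun t y => rfl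
    have hptj : ∀ (t : ℝ) (y : Fin k → ℝ) (j : Fin k), (pt t y : E (k + 1)) j.succ = y j :=
      fun t y j => rfl
    refine ⟨⟨?_, ?_, ?_, ?_⟩, ?_⟩
    · rw [Metric.isCompact_iff_isClosed_bounded]
      constructor
      · have h1 : {p : (Fin k → ℝ) × (Fin k → ℝ) | p.1 ∈ closure Ω ∧ Seg K t1 t2 p.1 p.2} =
            (Prod.fst ⁻¹' closure Ω) ∩ ⋂ t ∈ Icc t1 t2,
              (fun p : (Fin k → ℝ) × (Fin k → ℝ) => (pt t (p.2 + t • p.1) : E (k + 1))) ⁻¹' K := by
          ext p
          simp [Seg]
        rw [h1]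
        refine (isClosed_closure.preimage continuous_fst).inter ?_
        refine isClosed_biInter fun t _ => hK.isClosed.preimage ?_
        exact hpt.comp (by fun_prop : Continuous fun p : (Fin k → ℝ) × (Fin k → ℝ) =>
          (t, p.2 + t • p.1))
      · obtain ⟨R1, hR1⟩ := hΩ.bounded.closure.exists_norm_le
        obtain ⟨R2, hR2⟩ := hK.isBounded.exists_norm_le
        rw [isBounded_iff_forall_norm_le]
        refine ⟨max R1 (R2 + |t1| * R1), ?_⟩
        rintro ⟨v, b⟩ ⟨hv, hb⟩
        have h1 := hR1 v hv
        have h2 := hR2 _ (hb t1 (left_mem_Icc.2 h12.le))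
        have hR10 : 0 ≤ R1 := (norm_nonneg v).trans h1
        have h3 : ‖b + t1 • v‖ ≤ R2 := by
          have hR20 : 0 ≤ R2 := (norm_nonneg _).trans h2
          rw [pi_norm_le_iff_of_nonneg hR20]
          intro j
          have h4 := PiLp.norm_apply_le (pt t1 (b + t1 • v) : E (k + 1)) j.succ
          rw [hptj] at h4
          exact h4.trans h2
        rw [Prod.norm_def]
        apply max_le
        · exact h1.trans (le_max_left _ _)
        · refine le_trans ?_ (le_max_right _ _)
          calc ‖b‖ = ‖(b + t1 • v) - t1 • v‖ := by rw [add_sub_cancel_right]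
            _ ≤ ‖b + t1 • v‖ + ‖t1 • v‖ := norm_sub_le _ _
            _ ≤ R2 + |t1| * R1 := by
                rw [norm_smul, Real.norm_eq_abs]
                gcongr
    · intro v hv
      obtain ⟨b, hb, _⟩ := huniq v hv
      exact ⟨b, hv, hb⟩
    · intro v hv
      obtain ⟨b, hb, hb2⟩ := huniq v hv
      have : {c | (v, c) ∈ {p : (Fin k → ℝ) × (Fin k → ℝ) |
          p.1 ∈ closure Ω ∧ Seg K t1 t2 p.1 p.2}} = {b} := by
        ext c
        constructor
        · rintro ⟨_, hc⟩; exact hb2 c hc
        · intro hc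
          rw [mem_singleton_iff] at hc
          subst hc
          exact ⟨hv, hb⟩
      rw [this]
      exact convex_singleton _
    · have h1 : ∀ v, ∃ b, v ∈ closure Ω → Seg K t1 t2 v b := by
        intro v
        by_cases hv : v ∈ closure Ω
        · obtain ⟨b, hb, _⟩ := huniq v hv
          exact ⟨b, fun _ => hb⟩
        · exact ⟨0, fun h => absurd h hv⟩
      choose g hg using h1
      refine ⟨g, C, fun v hv => ⟨frontier_subset_closure hv, hg v (frontier_subset_closure hv)⟩, ?_⟩
      intro v hv w hw
      exact hH v hv w hw _ _ (hg v (frontier_subset_closure hv)) (hg w (frontier_subset_closure hw))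
    · rintro v b ⟨_, hb⟩ t ht
      refine ⟨pt t (b + t • v), hb t ht, hpt0 _ _, fun j => ?_⟩
      simp only [id]
      rw [hptj]; simp

end Pool.Agent.Results.MP_b1773a_an.BoundaryRegularSelection
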