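import Pool.Agent.TH705.RR.Sph
set_option autoImplicit false

/-!
# Kakeya sets with generically rotated positions have full Hausdorff dimension

`n ≥ 2`.  A set with a segment in every direction is given by the positions `a(e)` of the segments.
Decouple positions and directions by ONE rotation `g`: all positions are moved by `g` and the
directions are kept (or the directions are moved and the positions are kept).  Then for almost every
`g` (with respect to the Haar measure of `O(n)`, or of any compact group acting transitively on the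
unit sphere) every set that contains a part of positive length of the line through `g a(e)` in
direction `e`, for a set of directions `e` of positive surface measure, has Hausdorff dimension `n`.
For laws of `g` of dimension `α`, and for families of lines whose directions have dimension `β`, the
dimension is at least `1 + min α β`.  The positions `a` are an arbitrary measurable function, and
the exceptional set of rotations depends on `a` only.
-/

open MeasureTheory Metric
open scoped ENNReal

namespace Pool.Agent.Results.MP_b1773a_an.GenericRotations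

/-- The space `ℝ^n`. -/
abbrev Rn (n : ℕ) : Type := EuclideanSpace ℝ (Fin n)

/-- The linear isometries of `ℝ^n` (as a group: the orthogonal group). -/
abbrev Iso (n : ℕ) : Type := Rn n ≃ₗᵢ[ℝ] Rn n

/-- The image `g v` of the vector `v` under the isometry `g`. -/
noncomputable def ap {n : ℕ} (g : Iso n) (v : Rn n) : Rn n := g v

/-- The unit sphere. -/
abbrev Sph (n : ℕ) : Type := sphere (0 : Rn n) 1

/-- The surface measure on the unit sphere. -/
noncomputable def surf (n : ℕ) : Measure (Sph n) := (volume : Measure (Rn n)).toSphere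

/-- `g` is a measurable family of isometries (a random isometry). -/
def Random {n : ℕ} {Ω : Type} [MeasurableSpace Ω] (g : Ω → Iso n) : Prop :=
  ∀ v : Rn n, Measurable (fun ω => ap (g ω) v)

/-- The law of the image `g v` of every unit vector `v` under the random isometry `g` has dimension
at least `α`, uniformly, with constant `A`. -/
def Spread {n : ℕ} {Ω : Type} [MeasurableSpace Ω] (P : Measure Ω) (g : Ω → Iso n) (A α : ℝ) : Prop :=
  ∀ v w : Rn n, ‖v‖ = 1 → ‖w‖ = 1 → ∀ s : ℝ, 0 < s →
    P {ω | ‖ap (g ω) v - w‖ ≤ s} ≤ ENNReal.ofReal (A * s ^ α)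

/-- `e` is a measurable family of unit vectors (directions), whose distribution has dimension at
least `β`, with constant `B`. -/
def Directions {n : ℕ} {V : Type} [MeasurableSpace V] (ν : Measure V) (e : V → Rn n) (B β : ℝ) :
    Prop :=
  Measurable e ∧ (∀ v, ‖e v‖ = 1) ∧
    ∀ u : Rn n, ‖u‖ = 1 → ∀ r : ℝ, 0 < r → ν {v | ‖e v - u‖ ≤ r} ≤ ENNReal.ofReal (B * r ^ β)

/-- Every set `K` of dimension less than `s` meets the line through `b v` in direction `d v` in a
set of length zero, for `ν`-almost every `v`. -/
def MeetsNull {n : ℕ} {V : Type} [MeasurableSpace V] (ν : Measure V) (b d : V → Rn n) (s : ℝ) :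
    Prop :=
  ∀ K : Set (Rn n), dimH K < ENNReal.ofReal s → ∀ᵐ v ∂ν, volume {t : ℝ | b v + t • d v ∈ K} = 0

/-- Every set `K` that contains a subset of positive length of the line through `b e` in direction
`d e`, for all `e` in a set of directions of positive surface measure, has dimension `n`. -/
def FullDimension {n : ℕ} (b d : Sph n → Rn n) : Prop :=
  ∀ (S : Set (Sph n)) (K : Set (Rn n)), 0 < surf n S →
    (∀ e ∈ S, 0 < volume {t : ℝ | b e + t • d e ∈ K}) → dimH K = n

/-- `ρ` is an action of the group `G` by linear isometries of `ℝ^n`. -/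
def Action {n : ℕ} {G : Type} [Group G] (ρ : G → Iso n) : Prop :=
  ∀ (k l : G) (v : Rn n), ap (ρ (k * l)) v = ap (ρ k) (ap (ρ l) v)

/-- `ρ` is continuous in `k` and transitive on the unit sphere. -/
def Transitive {n : ℕ} {G : Type} [TopologicalSpace G] (ρ : G → Iso n) : Prop :=
  (∀ v : Rn n, Continuous (fun k => ap (ρ k) v)) ∧
    ∀ v w : Rn n, ‖v‖ = 1 → ‖w‖ = 1 → ∃ k, ap (ρ k) v = w

/-- **Kakeya sets with generically rotated positions, or directions.** -/
theorem result (n : ℕ) (hn : 2 ≤ n) :
    -- (1) laws of dimension `α`, directions of dimension `β`: dimension `≥ 1 + min α β`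
    (∀ (V : Type) [MeasurableSpace V] (ν : Measure V) [IsFiniteMeasure ν] (a e : V → Rn n)
      (B β : ℝ), 0 ≤ B → 0 < β → Measurable a → Directions ν e B β →
      ∀ (Ω : Type) [MeasurableSpace Ω] (P : Measure Ω) [IsProbabilityMeasure P] (g : Ω → Iso n)
      (A α : ℝ), 0 ≤ A → 0 < α → Random g → Spread P g A α →
      ∀ᵐ ω ∂P, MeetsNull ν (fun v => ap (g ω) (a v)) e (1 + min α β) ∧
        MeetsNull ν a (fun v => ap (g ω) (e v)) (1 + min α β)) ∧
    -- (2) compact groups acting transitively on the unit sphere, for instance `O(n)` or `SO(n)`,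
    -- with the normalised Haar measure, and all directions: full dimension `n`
    (∀ (G : Type) [Group G] [TopologicalSpace G] [IsTopologicalGroup G] [CompactSpace G]
      [MeasurableSpace G] [BorelSpace G] (μ : Measure G) [μ.IsHaarMeasure] [IsProbabilityMeasure μ]
      (ρ : G → Iso n), Action ρ → Transitive ρ → ∀ a : Sph n → Rn n, Measurable a →
      ∀ᵐ k ∂μ, FullDimension (fun e => ap (ρ k) (a e)) (fun e => e) ∧
        FullDimension a (fun e => ap (ρ k) e)) ∧
    -- (3) in particular (from `O(n)`): for every measurable choice of the positions there is a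
    -- rotation of the positions for which all such sets have full dimension
    (∀ a : Sph n → Rn n, Measurable a → ∃ g : Iso n, FullDimension (fun e => ap g (a e)) (fun e => e)) := by
  have h1 : ∀ (V : Type) [MeasurableSpace V] (ν : Measure V) [IsFiniteMeasure ν] (a e : V → Rn n)
      (B β : ℝ), 0 ≤ B → 0 < β → Measurable a → Directions ν e B β →
      ∀ (Ω : Type) [MeasurableSpace Ω] (P : Measure Ω) [IsProbabilityMeasure P] (g : Ω → Iso n)
      (A α : ℝ), 0 ≤ A → 0 < α → Random g → Spread P g A α →
      ∀ᵐ ω ∂P, MeetsNull ν (fun v => ap (g ω) (a v)) e (1 + min α β) ∧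
        MeetsNull ν a (fun v => ap (g ω) (e v)) (1 + min α β) := by
    intro V _ ν _ a e B β hB hβ ha hdir Ω _ P _ g A α hA hα hg hsp
    obtain ⟨hem, he, hF⟩ := hdir
    filter_upwards [TH705.RR.dim_general hg ha hem he hA hB hα hβ hsp hF,
      TH705.RR.dim_general_dir hg ha hem he hA hB hα hβ hsp hF] with ω hω1 hω2
    exact ⟨hω1, hω2⟩
  have h2 : ∀ (G : Type) [Group G] [TopologicalSpace G] [IsTopologicalGroup G] [CompactSpace G]
      [MeasurableSpace G] [BorelSpace G] (μ : Measure G) [μ.IsHaarMeasure] [IsProbabilityMeasure μ]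
      (ρ : G → Iso n), Action ρ → Transitive ρ → ∀ a : Sph n → Rn n, Measurable a →
      ∀ᵐ k ∂μ, FullDimension (fun e => ap (ρ k) (a e)) (fun e => e) ∧
        FullDimension a (fun e => ap (ρ k) e) := by
    intro G _ _ _ _ _ _ μ _ _ ρ hact hρ a ha
    obtain ⟨hρ, htr⟩ := hρ
    have hn1 : (0 : ℝ) < (n : ℝ) - 1 := by
      have : (2 : ℝ) ≤ n := by exact_mod_cast hn
      linarith
    have hm : ∀ v, Measurable (fun k => ρ k v) := fun v => (hρ v).measurable
    have hsp : Spread μ ρ (5 * 2 ^ n) ((n : ℝ) - 1) :=
      TH705.RR.spread_group (by omega) μ (MonoidHom.mk' ρ (fun k l => by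
        ext v : 1
        exact hact k l v)) hm htr
    have hv := TH705.RR.vb_pos n
    have hfin : IsFiniteMeasure (surf n) := by
      unfold surf
      infer_instance
    have hd : Directions (surf n) (fun w : Sph n => (w : Rn n))
        ((n : ℝ) * (2 ^ n * TH705.RR.vb n * 5)) ((n : ℝ) - 1) :=
      ⟨measurable_subtype_coe, fun v => by simp, TH705.RR.surf_frost (by omega)⟩
    have hlow : ∀ b d : Sph n → Rn n, MeetsNull (surf n) b d (1 + min ((n : ℝ) - 1) ((n : ℝ) - 1)) →
        FullDimension b d := by
      intro b d hnull S K hS hK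
      apply le_antisymm
      · have h := dimH_mono (Set.subset_univ K)
        rw [Real.dimH_univ_eq_finrank] at h
        simpa using h
      · by_contra hlt
        push Not at hlt
        have h3 : dimH K < ENNReal.ofReal (1 + min ((n : ℝ) - 1) ((n : ℝ) - 1)) := by
          rw [min_self, add_sub_cancel, ENNReal.ofReal_natCast]
          exact hlt
        have h4 := hnull K h3
        have h5 : S ⊆ {v | ¬ volume {t : ℝ | b v + t • d v ∈ K} = 0} := by
          intro v hvS
          exact (hK v hvS).ne'
        exact hS.ne' (measure_mono_null h5 (ae_iff.1 h4))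
    filter_upwards [h1 (Sph n) (surf n) a (fun w => (w : Rn n)) _ ((n : ℝ) - 1) (by positivity) hn1
      ha hd G μ ρ (5 * 2 ^ n) ((n : ℝ) - 1) (by positivity) hn1 hm hsp] with k hk
    exact ⟨hlow _ _ hk.1, hlow _ _ hk.2⟩
  refine ⟨h1, h2, ?_⟩
  intro a ha
  let _ : MeasurableSpace (TH705.RR.On n) := borel _
  have _ : BorelSpace (TH705.RR.On n) := ⟨rfl⟩
  let K : TopologicalSpace.PositiveCompacts (TH705.RR.On n) := ⊤
  have hK : Measure.haarMeasure K Set.univ = 1 := by
    exact Measure.haarMeasure_self (K₀ := K)
  have _ : IsProbabilityMeasure (Measure.haarMeasure K) := ⟨hK⟩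
  have h3 := h2 (TH705.RR.On n) (Measure.haarMeasure K) (TH705.RR.act n)
    (fun k l v => rfl)
    ⟨TH705.RR.act_cont, TH705.RR.act_trans⟩ a ha
  obtain ⟨k, hk⟩ := h3.exists
  exact ⟨TH705.RR.act n k, hk.1⟩

end Pool.Agent.Results.MP_b1773a_an.GenericRotations
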