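import Pool.Agent.TH539.SAThin

set_option autoImplicit false

/-!
# MP_b1773a: Kakeya sets with semialgebraic slices

Write points of `ℝ^(d+1)` as `(t, y)`, with height `t` and `y ∈ ℝ^d`, and let `K_t` be the slice of
`K` at height `t`.  Suppose that `K` contains a unit segment in every direction `e ∈ S`, where
`S` is any set of directions making an angle of at most `60°` with the height axis.  If the slices `K_t`
are covered by `N` semialgebraic pieces of degree at most `D` (given by polynomial inequalities in `ℝ^d`),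
of total volume `m t`, for heights `t` in a set `G` which has measure at least `θ` in every
interval of length `1 / 4` over which `K` has no empty slice, then

  `c θ ^ (d + 1) |S| ≤ N ^ d (D + 1) ^ (d ^ 2) ∫ m`.

There is no condition on how the pieces change with the height: `K` need not be semialgebraic, and
need not be covered by semialgebraic sets of `ℝ^(d+1)`.  The same holds for covers by convex sets (this
is the case `D = 0`).

For every `K` with unit segments in a set of directions of positive measure there is an interval of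
heights over which all but at most `d` slices are not contained in a countable union of algebraic
hypersurfaces of `ℝ^d`.  Hence no Kakeya set of measure zero has slices which are semialgebraic, or
countable unions of semialgebraic sets and of convex sets.
-/

open MeasureTheory Set ENNReal NNReal Metric

namespace Pool.Agent.Results.MP_b1773a_an.SemialgebraicSlices

/-- The space `ℝ^(d+1)`. -/
abbrev Space (d : ℕ) : Type := EuclideanSpace ℝ (Fin (d + 1))

/-- The unit sphere of `ℝ^(d+1)`. -/
abbrev Direction (d : ℕ) : Type := sphere (0 : Space d) 1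

/-- The surface measure of the unit sphere. -/
noncomputable def surf (d : ℕ) : Measure (Direction d) :=
  (volume : Measure (Space d)).toSphere

/-- In every direction of `S` there is a unit segment contained in `K`. -/
def HasSegmentsIn {d : ℕ} (K : Set (Space d)) (S : Set (Direction d)) : Prop :=
  ∀ e ∈ S, ∃ z : Space d, ∀ s ∈ Icc (0:ℝ) 1, z + s • (e : Space d) ∈ K

/-- The directions making an angle of at most `60°` with the height axis. -/
def Steep (d : ℕ) : Set (Direction d) := {e | 1 / 2 ≤ |(e : Space d) 0|}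

/-- The slice of `K ⊆ ℝ^(d+1)` at height `t`: the set of all `y ∈ ℝ^d` with `(t, y) ∈ K`. -/
def slice {d : ℕ} (K : Set (Space d)) (t : ℝ) : Set (Fin d → ℝ) :=
  {y | WithLp.toLp 2 (Fin.cons t y : Fin (d + 1) → ℝ) ∈ K}

/-- `K` has no empty slice over the interval `[a, a + 1/4]`. -/
def Over {d : ℕ} (K : Set (Space d)) (a : ℝ) : Prop :=
  ∀ t ∈ Icc a (a + 1 / 4), (slice K t).Nonempty

/-- `G` has (outer) measure at least `θ` in every interval of length `1 / 4` over which `K` has no
empty slice. -/
def Thick {d : ℕ} (K : Set (Space d)) (θ : ℝ) (G : Set ℝ) : Prop :=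
  ∀ a : ℝ, Over K a → ENNReal.ofReal θ ≤ volume (G ∩ Icc a (a + 1 / 4))

/-- `B ⊆ ℝ^d` is given by finitely many polynomial inequalities `P i > 0` and `Q j ≥ 0`, the total
degrees of the polynomials adding up to at most `D`. -/
def Basic {d : ℕ} (D : ℕ) (B : Set (Fin d → ℝ)) : Prop :=
  ∃ (a b : ℕ) (P : Fin a → MvPolynomial (Fin d) ℝ) (Q : Fin b → MvPolynomial (Fin d) ℝ),
    ∑ i, (P i).totalDegree + ∑ j, (Q j).totalDegree ≤ D ∧
    B = {x | (∀ i, 0 < MvPolynomial.eval x (P i)) ∧ ∀ j, 0 ≤ MvPolynomial.eval x (Q j)}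

/-- A piece of degree `D`: a basic semialgebraic set of degree at most `D`, and for `D = 0` a convex
set. -/
def Piece {d : ℕ} (D : ℕ) (B : Set (Fin d → ℝ)) : Prop := if D = 0 then Convex ℝ B else Basic D B

/-- `A` is covered by `N` (possibly empty) pieces of degree `D` whose volumes add up to at
most `m`. -/
def Cover {d : ℕ} (N D : ℕ) (m : ℝ≥0∞) (A : Set (Fin d → ℝ)) : Prop :=
  ∃ B : Fin N → Set (Fin d → ℝ), (∀ j, Piece D (B j)) ∧ A ⊆ ⋃ j, B j ∧ ∑ j, volume (B j) ≤ m

/-- At all small scales `δ` there is a set `G` of heights, of measure at least `δ ^ γ` in every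
interval of length `1 / 4` over which `K` has no empty slice, such that the slices of `K` at the heights
`t ∈ G` are covered by at most `δ ^ (-γ)` pieces of degree at most `δ ^ (-γ)`, of total volume `m t`,
where `∫ m` is at most `δ ^ (-γ)` times the volume of the `δ`-neighbourhood of `K`. -/
def Tame {d : ℕ} (γ : ℝ) (K : Set (Space d)) : Prop :=
  ∃ δ₀ : ℝ, 0 < δ₀ ∧ ∀ δ : ℝ, 0 < δ → δ < δ₀ →
    ∃ (G : Set ℝ) (N D : ℕ) (m : ℝ → ℝ≥0∞), Thick K (δ ^ γ) G ∧ (N:ℝ) ≤ δ ^ (-γ) ∧
      (D:ℝ) ≤ δ ^ (-γ) ∧ Measurable m ∧ (∀ t ∈ G, Cover N D (m t) (slice K t)) ∧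
      ∫⁻ t, m t ≤ ENNReal.ofReal (δ ^ (-γ)) * volume (thickening δ K)

/-- `A` is the union of countably many pieces, of any degrees. -/
def CUnion {d : ℕ} (A : Set (Fin d → ℝ)) : Prop :=
  ∃ B : ℕ → Set (Fin d → ℝ), (∀ j, ∃ D, Piece D (B j)) ∧ A = ⋃ j, B j

/-- In every interval of length `1 / 4` over which `K` has no empty slice, the set of heights
at which the slice of `K` is a countable union of pieces is not null. -/
def OftenCountable {d : ℕ} (K : Set (Space d)) : Prop :=
  ∀ a : ℝ, Over K a → volume ({t | CUnion (slice K t)} ∩ Icc a (a + 1 / 4)) ≠ 0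

/-- `A ⊆ ℝ^d` is contained in a countable union of algebraic hypersurfaces. -/
def Thin {d : ℕ} (A : Set (Fin d → ℝ)) : Prop :=
  ∃ P : ℕ → MvPolynomial (Fin d) ℝ, (∀ j, P j ≠ 0) ∧
    A ⊆ ⋃ j, {x | MvPolynomial.eval x (P j) = 0}

/-- There is an interval of length `1 / 4` over which `K` has no empty slice, and in which the
slice of `K` is thin for at most `d` heights. -/
def FewThin {d : ℕ} (K : Set (Space d)) : Prop :=
  ∃ a : ℝ, Over K a ∧ {t ∈ Icc a (a + 1 / 4) | Thin (slice K t)}.encard ≤ d

/-- `|N_δ K| ≥ c' δ ^ κ` for all `0 < δ < 1`, with some `c' > 0`. -/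
def LowerBound {d : ℕ} (κ : ℝ) (K : Set (Space d)) : Prop :=
  ∃ c' : ℝ, 0 < c' ∧ ∀ δ : ℝ, 0 < δ → δ < 1 →
    ENNReal.ofReal (c' * δ ^ κ) ≤ volume (thickening δ K)

/-- **Kakeya sets with semialgebraic slices.**  For every `d ≥ 1` there is `c > 0` such
that, in `ℝ^(d+1)`:

1. if `K` contains a unit segment in every direction of `S ⊆ Steep d`, `G` is thick with
  constant `θ > 0`, and the slices of `K` at the heights `t ∈ G` are covered by `N` pieces of degree `D`
  of total volume at most `m t`, then `c θ ^ (d + 1) |S| ≤ N ^ d (D + 1) ^ (d ^ 2) ∫ m`;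
2. if `S` has positive measure, there is an interval of length `1 / 4` over which `K` has no
  empty slice, and in which all but at most `d` slices are not contained in a countable union of algebraic
  hypersurfaces of `ℝ^d`;
3. if `S` has positive measure and, in every interval of length `1 / 4` over which `K` has no empty
  slice, the set of heights at which the slice of `K` is a countable union of semialgebraic and
  convex sets is not null, then `K` is not null and its Hausdorff dimension is `d + 1`;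
4. if `K` contains a unit segment in every direction and is tame with exponent `γ ≥ 0`, then
  `|N_δ K| ≥ c' δ ^ ((d ^ 2 + 2 d + 2) γ)` for all `0 < δ < 1`, with some `c' > 0`;
5. if it is tame for all `γ > 0`, then for every `ε > 0` there is `c' > 0` with
  `|N_δ K| ≥ c' δ ^ ε` for all `0 < δ < 1`: the lower Minkowski dimension of `K` is `d + 1`. -/
theorem result (d : ℕ) (hd : 1 ≤ d) :
    (∃ c : ℝ, 0 < c ∧ ∀ (K : Set (Space d)) (S : Set (Direction d)), S ⊆ Steep d →
      HasSegmentsIn K S →
        (∀ (θ : ℝ) (G : Set ℝ) (N D : ℕ) (m : ℝ → ℝ≥0∞), 0 < θ → Thick K θ G → Measurable m →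
          (∀ t ∈ G, Cover N D (m t) (slice K t)) →
          ENNReal.ofReal (c * θ ^ (d + 1)) * surf d S ≤
            (N:ℝ≥0∞) ^ d * ((D:ℝ≥0∞) + 1) ^ (d ^ 2) * ∫⁻ t, m t) ∧
        (surf d S ≠ 0 → FewThin K ∧ (OftenCountable K → volume K ≠ 0 ∧ dimH K = d + 1))) ∧
    (∀ K : Set (Space d), HasSegmentsIn K univ →
      (∀ γ : ℝ, 0 ≤ γ → Tame γ K → LowerBound (((d:ℝ) ^ 2 + 2 * d + 2) * γ) K) ∧
      ((∀ γ : ℝ, 0 < γ → Tame γ K) → ∀ ε : ℝ, 0 < ε → LowerBound ε K)) := by
  have hcB := Pool.Agent.TH539.SA.cB_pos d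
  have hcc := Pool.Agent.TH539.ccc_pos d
  refine ⟨⟨Pool.Agent.TH539.ccc d / Pool.Agent.TH539.SA.cB d, by positivity, ?_⟩, ?_⟩
  · -- the constant
    have hconst : ∀ (θ : ℝ) (x y z : ℝ≥0∞), 0 < θ →
        ENNReal.ofReal (Pool.Agent.TH539.ccc d * θ ^ (d + 1)) * x ≤ y →
        y ≤ ENNReal.ofReal (Pool.Agent.TH539.SA.cB d) * z →
        ENNReal.ofReal (Pool.Agent.TH539.ccc d / Pool.Agent.TH539.SA.cB d * θ ^ (d + 1)) * x ≤ z := by
      intro θ x y z hθ h1 h2
      calc ENNReal.ofReal (Pool.Agent.TH539.ccc d / Pool.Agent.TH539.SA.cB d * θ ^ (d + 1)) * x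
          = ENNReal.ofReal ((Pool.Agent.TH539.SA.cB d : ℝ)⁻¹) *
            (ENNReal.ofReal (Pool.Agent.TH539.ccc d * θ ^ (d + 1)) * x) := by
            rw [← mul_assoc, ← ENNReal.ofReal_mul (by positivity)]
            congr 2
            field_simp
        _ ≤ ENNReal.ofReal ((Pool.Agent.TH539.SA.cB d : ℝ)⁻¹) *
            (ENNReal.ofReal (Pool.Agent.TH539.SA.cB d) * z) := mul_le_mul' le_rfl (h1.trans h2)
        _ = z := by
            rw [← mul_assoc, ← ENNReal.ofReal_mul (by positivity), inv_mul_cancel₀ hcB.ne',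
              ENNReal.ofReal_one, one_mul]
    intro K S hS hK
    refine ⟨?_, ?_⟩
    · intro θ G N D m hθ hG hm hcov
      have hlam := Pool.Agent.TH539.SA.lam_le d N D
      have h := Pool.Agent.TH539.Gen.main_ineq (Pool.Agent.TH539.SA.cover_vel hd N D) (K := K)
        (S := S) (fun e he => hS he) hK hθ hG hm hcov
      rw [mul_assoc] at h
      refine hconst θ _ _ _ hθ (Pool.Agent.TH539.real_form hθ h) ?_
      calc _ ≤ (ENNReal.ofReal (Pool.Agent.TH539.SA.cB d) *
            ((N:ℝ≥0∞) ^ d * ((D:ℝ≥0∞) + 1) ^ (d ^ 2))) * ∫⁻ t, m t := by gcongr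
        _ = _ := by ring
    · intro hS0
      refine ⟨Pool.Agent.TH539.Gen.few_thin hd (fun e he => hS he) hK hS0, ?_⟩
      intro hG
      have h := Pool.Agent.TH539.Gen.positive_countable hd (K := K) (S := S)
        (fun e he => hS he) hK hS0 hG
      exact ⟨h, Pool.Agent.TH539.dimH_of_volume_ne_zero h⟩
  · intro K hK
    have hK' : ∀ e : sphere (0 : EuclideanSpace ℝ (Fin (d + 1))) 1,
        ∃ z : EuclideanSpace ℝ (Fin (d + 1)), ∀ s ∈ Icc (0:ℝ) 1,
          z + s • (e : EuclideanSpace ℝ (Fin (d + 1))) ∈ K := fun e => hK e (mem_univ e)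
    refine ⟨fun γ hγ hA => Pool.Agent.TH539.Gen.mink hd hK' hγ hA, ?_⟩
    intro hA ε hε
    have hpos : (0:ℝ) < (d:ℝ) ^ 2 + 2 * d + 2 := by positivity
    have h := Pool.Agent.TH539.Gen.mink hd (γ := ε / ((d:ℝ) ^ 2 + 2 * d + 2)) hK' (by positivity)
      (hA _ (by positivity))
    rw [mul_div_cancel₀ _ hpos.ne'] at h
    exact h

end Pool.Agent.Results.MP_b1773a_an.SemialgebraicSlices
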